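import Pool.Agent.U3.QP.Defs
import Pool.Agent.U3.UC.MotDefs

/-!
# Chow-Kunneth decompositions of motives with finite groups: definitions
-/

set_option autoImplicit false

open CategoryTheory AlgebraicGeometry

universe u v w

namespace Pool.Agent.U3.MQ

open Pool.Agent.H914 Pool.Agent.H914.VarClass Pool.Agent.H914.VarClass.Obj Pool.Agent.W492.BB
  Pool.Agent.W550.Corr Pool.Agent.TH133 Pool.Agent.U3.SD Pool.Agent.U981.EQ Pool.Agent.U3.QP
  Pool.Agent.U3.UC

variable {k : Type u} [Field k] {𝒱 : VarClass k}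

section chow

variable (C : TheoryData.{u, v, 0} 𝒱 ℚ)

/-- `ρ` is an action of the group `G` on the Chow motive `M = (X, p)`, `p` an idempotent
self-correspondence of degree zero of `X`: the `ρ g` are endomorphisms of `M` with
`ρ 1 = p = id_M` and `ρ (g h) = ρ g ∘ ρ h`. -/
structure IsMotAction {G : Type} [Group G] {X : 𝒱.Obj} (p : C.A (X.prod X))
    (ρ : G → C.A (X.prod X)) : Prop where
  deg : ∀ g, C.Deg X.dim (ρ g)
  one : ρ 1 = p
  mul : ∀ g h, ρ (g * h) = C.comp (ρ h) (ρ g)

/-- The motive `(Z, e)` is the direct sum of direct summands of the motives `(W t, p t)(-r t)`,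
`r t ∈ ℤ`, for `t` in a finite set, by the projections `a t : (Z, e) → (W t, p t)(-r t)` and the
inclusions `b t : (W t, p t)(-r t) → (Z, e)`; the summands of `(W t, p t)` are cut out by linear
combinations of the endomorphisms `ρ t g`. Example: `Z = W t`, one summand, `r t = 0`, `p t = ρ t 1`,
`a t = b t = e` any idempotent linear combination of the `ρ t g`, such as the projection onto an
isotypic part. -/
structure IsMotSum {Z : 𝒱.Obj} (e : C.A (Z.prod Z)) {T : Type} [Fintype T] {W : T → 𝒱.Obj}
    (p : ∀ t, C.A ((W t).prod (W t))) (r : T → ℤ) (a : ∀ t, C.A (Z.prod (W t)))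
    (b : ∀ t, C.A ((W t).prod Z)) {G : T → Type} (ρ : ∀ t, G t → C.A ((W t).prod (W t))) :
    Prop where
  deg_a : ∀ t, C.Deg ((Z.dim : ℤ) - r t) (a t)
  deg_b : ∀ t, C.Deg (((W t).dim : ℤ) + r t) (b t)
  a_mem : ∀ t, C.comp e (a t) = a t ∧ C.comp (a t) (p t) = a t
  b_mem : ∀ t, C.comp (p t) (b t) = b t ∧ C.comp (b t) e = b t
  mem : ∀ t, C.comp (b t) (a t) ∈ Submodule.span ℚ (Set.range (ρ t))
  orth : ∀ t t', t ≠ t' → C.comp (b t) (a t') = 0
  sum : ∑ t, C.comp (a t) (b t) = e

end chow

section weil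

variable {C : TheoryData.{u, v, 0} 𝒱 ℚ} {K : Type w} [Field K] (H : WeilTheoryData.{u, v, w} C K)

/-- All but one of the `H^i(M)`, `M = (X, p)`, are finite-dimensional: for all `i ≤ 2 dim X` but one
the projection of `H^*(M)` onto `H^i(M)` is induced by a correspondence `z` in `throughNil H X`, which
factors through sums of twists of motives of varieties with `NilIdeal`. Nothing is assumed about the
exceptional `H^m(M)`. -/
def AllButOne {X : 𝒱.Obj} (p : C.A (X.prod X)) : Prop :=
  ∃ m : ℕ, ∀ i : ℕ, i ≤ 2 * X.dim → i ≠ m → ∃ z ∈ throughNil H X,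
    (∀ x : H.A X, H.Deg i x → H.act (H.cl z) x = H.act (H.cl p) x) ∧
    ∀ (j : ℤ) (x : H.A X), j ≠ i → H.Deg j x → H.act (H.cl z) x = 0

/-- `BuiltMot H G X p ρ`: the motive `M = (X, p)` with the self-correspondences `ρ g`, `g` in the group
`G`, can be built in finitely many steps. This is the smallest class which

* contains all `(G, M, ρ)` if `ρ` is an action of the finite group `G` on `M`, and all but one of the
  `H^i(M)` are finite-dimensional (`AllButOne`);
* is closed under tensor products `M ⊗ N`, with the diagonal action of `G`;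
* is closed under duals, with the transposes of the `ρ g⁻¹`;
* is closed under tensor powers `M^⊗(n+1)`, with the groups which permute the factors and act on them
  by the given group: `P = X^(n+1)`, and the `τ g` are compositions of a permutation `t` of the
  factors and the external product of endomorphisms `ρ (u i)`;
* is closed under sums of twisted summands, with the endomorphisms which are induced by the given
  groups on the summands. In particular it contains the summands of `M` which are cut out by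
  idempotent linear combinations of the `ρ g` (isotypic parts, symmetric and exterior powers, ...). -/
inductive BuiltMot : ∀ (G : Type) [Group G] (X : 𝒱.Obj), C.A (X.prod X) →
    (G → C.A (X.prod X)) → Prop
  | finite {G : Type} [Group G] [Finite G] {X : 𝒱.Obj} {p : C.A (X.prod X)}
      {ρ : G → C.A (X.prod X)} (hρ : IsMotAction C p ρ) (hX : AllButOne H p) : BuiltMot G X p ρ
  | tensor {G : Type} [Group G] {X Y : 𝒱.Obj} {p : C.A (X.prod X)} {q : C.A (Y.prod Y)}
      {ρ : G → C.A (X.prod X)} {σ : G → C.A (Y.prod Y)} (hX : BuiltMot G X p ρ)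
      (hY : BuiltMot G Y q σ) : BuiltMot G (X.prod Y)
        (C.mul (C.up (prodMap (fst X Y) (fst X Y)) p) (C.up (prodMap (snd X Y) (snd X Y)) q))
        fun g => C.mul (C.up (prodMap (fst X Y) (fst X Y)) (ρ g))
          (C.up (prodMap (snd X Y) (snd X Y)) (σ g))
  | dual {G : Type} [Group G] {X : 𝒱.Obj} {p : C.A (X.prod X)} {ρ : G → C.A (X.prod X)}
      (hX : BuiltMot G X p ρ) : BuiltMot G X (tp C p) fun g => tp C (ρ g⁻¹)
  | power {G G' : Type} [Group G] [Group G'] {X P : 𝒱.Obj} {e : C.A (X.prod X)}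
      {ρ : G' → C.A (X.prod X)} {n : ℕ} {p : Fin (n + 1) → (P ⟶ X)} {τ : G → C.A (P.prod P)}
      (hX : BuiltMot G' X e ρ) (hp : IsPower p)
      (hτ : ∀ g, ∃ (σ : Equiv.Perm (Fin (n + 1))) (u : Fin (n + 1) → G') (t : P ⟶ P),
        (∀ i, t ≫ p i = p (σ i)) ∧ τ g = C.comp (C.graph t)
          (List.ofFn fun i => C.up (prodMap (p i) (p i)) (ρ (u i))).prod) :
      BuiltMot G P (List.ofFn fun i => C.up (prodMap (p i) (p i)) e).prod τ
  | sum {G : Type} [Group G] {Z : 𝒱.Obj} {e : C.A (Z.prod Z)} {τ : G → C.A (Z.prod Z)} {T : Type}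
      [Fintype T] {W : T → 𝒱.Obj} {p : ∀ t, C.A ((W t).prod (W t))} {r : T → ℤ}
      {a : ∀ t, C.A (Z.prod (W t))} {b : ∀ t, C.A ((W t).prod Z)} {G' : T → Type}
      [∀ t, Group (G' t)] {ρ : ∀ t, G' t → C.A ((W t).prod (W t))}
      (hW : ∀ t, BuiltMot (G' t) (W t) (p t) (ρ t)) (hs : IsMotSum C e p r a b ρ)
      (hτ : ∀ g t, ∃ g' : G' t, C.comp (τ g) (a t) = C.comp (a t) (ρ t g') ∧
        C.comp (b t) (τ g) = C.comp (ρ t g') (b t)) : BuiltMot G Z e τ

end weil

end Pool.Agent.U3.MQ
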