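import Pool.Agent.U3.MQ.Ring
import Pool.Agent.U3.MQ.Defs
import Pool.Agent.U3.QP.Lower

/-!
# The base case
-/

set_option autoImplicit false

open CategoryTheory AlgebraicGeometry

universe u v w

namespace Pool.Agent.U3.MQ

open Pool.Agent.H914 Pool.Agent.H914.VarClass Pool.Agent.H914.VarClass.Obj Pool.Agent.W492.BB
  Pool.Agent.W550.Corr Pool.Agent.TH133 Pool.Agent.TH829.Kim Pool.Agent.U3.SD Pool.Agent.U981.EQ
  Pool.Agent.U3.QP

set_option linter.unusedSectionVars false

variable {k : Type u} [Field k] {𝒱 : VarClass k}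

variable {C : TheoryData.{u, v, 0} 𝒱 ℚ} {K : Type w} [Field K]
  (H : WeilTheoryData.{u, v, w} C K) {X Y Z W : 𝒱.Obj}

/-- Chow-Kunneth decompositions of the motive `(X, p)`, indexed by `ℕ`. -/
structure CKp (p : C.A (X.prod X)) (π : ℕ → C.A (X.prod X)) : Prop where
  deg : ∀ i, π i ∈ C.gr (X.prod X) X.dim
  out : ∀ i, 2 * X.dim < i → π i = 0
  mul : ∀ i j, C.comp (π i) (π j) = if i = j then π i else 0
  sum : ∑ i ∈ Finset.range (2 * X.dim + 1), π i = p
  act : ∀ (i : ℕ) (m : ℤ) (x : H.A X), x ∈ H.gr X m →
    H.act (H.cl (π i)) x = if m = i then H.act (H.cl p) x else 0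

/-- There is a Chow-Kunneth decomposition which commutes with the given correspondences. -/
def EqCKp {G : Type} (p : C.A (X.prod X)) (ρ : G → C.A (X.prod X)) : Prop :=
  ∃ π : ℕ → C.A (X.prod X), CKp H p π ∧ ∀ g i, C.comp (ρ g) (π i) = C.comp (π i) (ρ g)

variable {H} [hC : IsChowProj C] [hH : IsWeilProj H] {G : Type} [Group G]

include hC

lemma mem_degree {p : C.A (X.prod X)} {ρ : G → C.A (X.prod X)} (h : IsMotAction C p ρ) :
    p ∈ C.gr (X.prod X) X.dim := by
  rw [← h.one]
  exact h.deg 1

lemma left_id {p : C.A (X.prod X)} {ρ : G → C.A (X.prod X)} (h : IsMotAction C p ρ) (g : G) :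
    C.comp p (ρ g) = ρ g := by
  have := h.mul g 1
  rw [mul_one, h.one] at this
  exact this.symm

lemma right_id {p : C.A (X.prod X)} {ρ : G → C.A (X.prod X)} (h : IsMotAction C p ρ) (g : G) :
    C.comp (ρ g) p = ρ g := by
  have := h.mul 1 g
  rw [one_mul, h.one] at this
  exact this.symm

/-- The idempotent as an element of the ring. -/
noncomputable def pR {p : C.A (X.prod X)} {ρ : G → C.A (X.prod X)} (h : IsMotAction C p ρ) :
    cor0 C X := ⟨p, mem_degree h⟩

/-- The endomorphisms as elements of the ring. -/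
noncomputable def rR {p : C.A (X.prod X)} {ρ : G → C.A (X.prod X)} (h : IsMotAction C p ρ)
    (g : G) : cor0 C X := ⟨ρ g, h.deg g⟩

lemma rR_mul {p : C.A (X.prod X)} {ρ : G → C.A (X.prod X)} (h : IsMotAction C p ρ) (g g' : G) :
    rR h (g * g') = rR h g * rR h g' := Subtype.ext (h.mul g g')

lemma rR_one {p : C.A (X.prod X)} {ρ : G → C.A (X.prod X)} (h : IsMotAction C p ρ) :
    rR h 1 = pR h := Subtype.ext h.one

lemma pR_r {p : C.A (X.prod X)} {ρ : G → C.A (X.prod X)} (h : IsMotAction C p ρ) (g : G) :
    pR h * rR h g = rR h g := by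
  rw [← rR_one, ← rR_mul, one_mul]

lemma r_pR {p : C.A (X.prod X)} {ρ : G → C.A (X.prod X)} (h : IsMotAction C p ρ) (g : G) :
    rR h g * pR h = rR h g := by
  rw [← rR_one, ← rR_mul, mul_one]

lemma pR_pR {p : C.A (X.prod X)} {ρ : G → C.A (X.prod X)} (h : IsMotAction C p ρ) :
    pR h * pR h = pR h := by
  rw [← rR_one, ← rR_mul, mul_one]

/-- The action on the whole motive of `X`, trivial on the complement. -/
noncomputable def homR {p : C.A (X.prod X)} {ρ : G → C.A (X.prod X)} (h : IsMotAction C p ρ) :
    G →* cor0 C X where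
  toFun g := rR h g + (1 - pR h)
  map_one' := by
    rw [rR_one]
    abel
  map_mul' g g' := by
    have e1 : (rR h g + (1 - pR h)) * (rR h g' + (1 - pR h)) = rR h g * rR h g' +
        (rR h g - rR h g * pR h) + (rR h g' - pR h * rR h g') +
        (1 - pR h - pR h + pR h * pR h) := by noncomm_ring
    rw [e1, r_pR, pR_r, pR_pR, rR_mul, sub_self, sub_self]
    abel

lemma homR_apply {p : C.A (X.prod X)} {ρ : G → C.A (X.prod X)} (h : IsMotAction C p ρ) (g : G) :
    homR h g = rR h g + (1 - pR h) := rfl

lemma homR_p {p : C.A (X.prod X)} {ρ : G → C.A (X.prod X)} (h : IsMotAction C p ρ) (g : G) :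
    homR h g * pR h = rR h g := by
  rw [homR_apply, add_mul, sub_mul, one_mul, pR_pR, sub_self, add_zero, r_pR]

lemma p_homR {p : C.A (X.prod X)} {ρ : G → C.A (X.prod X)} (h : IsMotAction C p ρ) (g : G) :
    pR h * homR h g = rR h g := by
  rw [homR_apply, mul_add, mul_sub, mul_one, pR_pR, sub_self, add_zero, pR_r]

include hH

lemma rho_gr (a : cor0 C X) {m : ℤ} {x : H.A X} (hx : x ∈ H.gr X m) :
    rhoH H X a x ∈ H.gr X m := actH_mem0 a.2 hx

/-- **The base case.** -/
theorem eqCKp_base [Finite G] {p : C.A (X.prod X)} {ρ : G → C.A (X.prod X)}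
    (hρ : IsMotAction C p ρ) (hX : AllButOne H p) : EqCKp H p ρ := by
  classical
  have := Fintype.ofFinite G
  set P : cor0 C X := pR hρ with hP
  have hPc : ∀ x : H.A X, rhoH H X P x = H.act (H.cl p) x := fun x => rfl
  have hPP : ∀ x : H.A X, rhoH H X P (rhoH H X P x) = rhoH H X P x := fun x => by
    rw [← Module.End.mul_apply, ← map_mul, hP, pR_pR]
  obtain ⟨m, hm, hX⟩ : ∃ m : ℕ, m < 2 * X.dim + 1 ∧ ∀ i : ℕ, i < 2 * X.dim + 1 → i ≠ m →
      ∃ z ∈ throughNil H X, ∀ (j : ℤ) (x : H.A X), x ∈ H.gr X j →
        H.act (H.cl z) x = if j = i then H.act (H.cl p) x else 0 := by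
    obtain ⟨m, hm⟩ := hX
    have h1 : ∀ i : ℕ, i ≤ 2 * X.dim → i ≠ m → ∃ z ∈ throughNil H X,
        ∀ (j : ℤ) (x : H.A X), x ∈ H.gr X j →
        H.act (H.cl z) x = if j = i then H.act (H.cl p) x else 0 := by
      intro i hi him
      obtain ⟨z, hz, hz1, hz2⟩ := hm i hi him
      refine ⟨z, hz, fun j x hx => ?_⟩
      split_ifs with hj
      · subst hj
        exact hz1 x hx
      · exact hz2 j x hj hx
    by_cases hmd : m < 2 * X.dim + 1
    · exact ⟨m, hmd, fun i hi him => h1 i (by omega) him⟩
    · exact ⟨0, by omega, fun i hi _ => h1 i (by omega) (by omega)⟩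
  have hX' : ∀ i, ∃ z : C.A (X.prod X), i < 2 * X.dim + 1 → i ≠ m → z ∈ throughNil H X ∧
      ∀ (j : ℤ) (x : H.A X), x ∈ H.gr X j →
        H.act (H.cl z) x = if j = i then H.act (H.cl p) x else 0 := by
    intro i
    by_cases hi : i < 2 * X.dim + 1 ∧ i ≠ m
    · obtain ⟨a, ha, ha'⟩ := hX i hi.1 hi.2
      exact ⟨a, fun _ _ => ⟨ha, ha'⟩⟩
    · exact ⟨0, fun h h' => absurd ⟨h, h'⟩ hi⟩
  choose a ha using hX'
  have ha0 : ∀ i < 2 * X.dim + 1, i ≠ m → a i ∈ C.gr (X.prod X) X.dim := by
    intro i hi him
    have h1 := (ha i hi him).1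
    unfold throughNil at h1
    generalize a i = y at h1 ⊢
    induction h1 using Submodule.span_induction with
    | mem x hx =>
      obtain ⟨Y, n, a, b, -, hda, hdb, rfl⟩ := hx
      have hda' : a ∈ C.gr (X.prod Y) ((X.dim : ℤ) + -n) := by rw [← sub_eq_add_neg]; exact hda
      have := comp_mem C hda' hdb
      rwa [show (X.dim : ℤ) + (-n + n) = X.dim by ring] at this
    | zero => exact Submodule.zero_mem _
    | add x y _ _ hx hy => exact Submodule.add_mem _ hx hy
    | smul q x _ hx => exact Submodule.smul_mem _ q hx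
  let A : ℕ → cor0 C X := fun i =>
    if hi : i < 2 * X.dim + 1 ∧ i ≠ m then ⟨a i, ha0 i hi.1 hi.2⟩ else 0
  have hA : ∀ i < 2 * X.dim + 1, i ≠ m → (A i : Cor C X) = a i := fun i hi him => by
    simp only [A]
    rw [dif_pos ⟨hi, him⟩]
  have hact : ∀ i < 2 * X.dim + 1, i ≠ m → ∀ (j : ℤ) (x : H.A X), x ∈ H.gr X j →
      rhoH H X (A i) x = if j = i then rhoH H X P x else 0 := fun i hi him j x hx => by
    rw [rhoH_apply, hA i hi him]
    exact (ha i hi him).2 j x hx
  obtain ⟨q, q1, q2, q3, q4, q5⟩ := exists_decomp (rhoH H X) (homR hρ) (p := P) (pR_pR hρ)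
    (fun g => by rw [hP, homR_p, p_homR]) hm A
    (fun i hi him j hj hjm => by
      apply ext_gr H
      intro l x hx
      rw [map_mul, Module.End.mul_apply, hact j hj hjm l x hx]
      by_cases hij : i = j
      · subst hij
        rw [if_pos rfl, hact i hi him l x hx]
        by_cases hl : l = i
        · rw [if_pos hl, hact i hi him l _ (rho_gr P hx), if_pos hl, hPP]
        · rw [if_neg hl, map_zero]
      · rw [if_neg hij, LinearMap.zero_apply]
        by_cases hl : l = j
        · rw [if_pos hl, hact i hi him l _ (rho_gr P hx), if_neg (by omega)]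
        · rw [if_neg hl, map_zero])
    (fun i hi him => by
      constructor
      · apply ext_gr H
        intro l x hx
        rw [map_mul, Module.End.mul_apply, hact i hi him l x hx]
        split_ifs
        · exact hPP x
        · rw [map_zero]
      · apply ext_gr H
        intro l x hx
        rw [map_mul, Module.End.mul_apply, hact i hi him l x hx, hact i hi him l _ (rho_gr P hx)]
        split_ifs
        · exact hPP x
        · rfl)
    (fun i hi him => by
      have h1 : Str H ((A i : cor0 C X) : Cor C X) := by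
        rw [hA i hi him]
        exact str_of_mem (ha i hi him).1
      exact h1.exists_nil)
    (fun i hi him g => by
      apply ext_gr H
      intro l x hx
      rw [map_mul, map_mul, Module.End.mul_apply, Module.End.mul_apply, hact i hi him l x hx,
        hact i hi him l _ (rho_gr _ hx)]
      split_ifs
      · rw [← Module.End.mul_apply, ← Module.End.mul_apply, ← map_mul, ← map_mul, hP, homR_p,
          p_homR]
      · rw [map_zero])
  have hq : ∀ (i : ℕ) (j : ℤ) (x : H.A X), x ∈ H.gr X j →
      rhoH H X (q i) x = if j = i then rhoH H X P x else 0 := by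
    have h1 : ∀ i < 2 * X.dim + 1, i ≠ m → ∀ (j : ℤ) (x : H.A X), x ∈ H.gr X j →
        rhoH H X (q i) x = if j = i then rhoH H X P x else 0 := by
      intro i hi him j x hx
      rw [q4 i hi him]
      exact hact i hi him j x hx
    intro i j x hx
    by_cases hx0 : x = 0
    · rw [hx0, map_zero, map_zero]
      split_ifs <;> rfl
    have hj0 := nonneg_of_mem H hx hx0
    have hj1 : j ≤ 2 * X.dim := by
      by_contra hcon
      rw [gr_top H (by omega)] at hx
      exact hx0 ((Submodule.mem_bot _).1 hx)
    by_cases hi : i < 2 * X.dim + 1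
    · by_cases him : i = m
      · subst him
        have h2 := congrArg (fun y => rhoH H X y x) q3
        simp only [map_sum, LinearMap.sum_apply] at h2
        rw [← Finset.add_sum_erase _ _ (Finset.mem_range.2 hm)] at h2
        have h3 : ∀ l ∈ (Finset.range (2 * X.dim + 1)).erase i, rhoH H X (q l) x =
            if j = l then rhoH H X P x else 0 := fun l hl => by
          rw [Finset.mem_erase, Finset.mem_range] at hl
          exact h1 l hl.2 hl.1 j x hx
        rw [Finset.sum_congr rfl h3] at h2
        obtain ⟨l, rfl⟩ := Int.eq_ofNat_of_zero_le hj0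
        split_ifs with hl
        · rw [Finset.sum_eq_zero, add_zero] at h2
          · exact h2
          · intro l' hl'
            rw [Finset.mem_erase] at hl'
            rw [if_neg (by omega)]
        · rw [Finset.sum_eq_single l] at h2
          · rw [if_pos rfl] at h2
            exact add_eq_right.1 h2
          · intro l' _ hl'
            rw [if_neg (by omega)]
          · intro h4
            exfalso
            apply h4
            rw [Finset.mem_erase, Finset.mem_range]
            exact ⟨by omega, by omega⟩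
      · exact h1 i hi him j x hx
    · rw [q2 i (by omega), map_zero, LinearMap.zero_apply, if_neg (by omega)]
  have hval : ∀ s : Finset ℕ, ((∑ i ∈ s, q i : cor0 C X) : Cor C X) =
      ∑ i ∈ s, ((q i : cor0 C X) : Cor C X) := fun s => map_sum (cor0 C X).subtype q s
  refine ⟨fun i => ((q i : cor0 C X) : Cor C X), ⟨?_, ?_, ?_, ?_, ?_⟩, ?_⟩
  · exact fun i => (q i).2
  · intro i hi
    change ((q i : cor0 C X) : Cor C X) = 0
    rw [q2 i (by omega)]
    rfl
  · intro i j
    have h1 := congrArg (fun y : cor0 C X => (y : Cor C X)) (q1 j i)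
    by_cases hij : i = j
    · subst hij
      rw [if_pos rfl] at h1 ⊢
      exact h1
    · rw [if_neg (Ne.symm hij)] at h1
      rw [if_neg hij]
      exact h1
  · have h1 := congrArg (fun y : cor0 C X => (y : Cor C X)) q3
    exact (hval _).symm.trans h1
  · intro i j x hx
    exact hq i j x hx
  · intro g i
    have h1 : rR hρ g * q i = q i * rR hρ g := by
      have h2 := q5 i g
      have h3 : P * q i = q i * P := by
        have e1 : P * q i = q i := by
          by_cases hi : i < 2 * X.dim + 1
          · rw [← q3, Finset.sum_mul, Finset.sum_eq_single i]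
            · rw [q1, if_pos rfl]
            · intro j _ hj
              rw [q1, if_neg hj]
            · exact fun h => absurd (Finset.mem_range.2 hi) h
          · rw [q2 i (by omega), mul_zero]
        have e2 : q i * P = q i := by
          by_cases hi : i < 2 * X.dim + 1
          · rw [← q3, Finset.mul_sum, Finset.sum_eq_single i]
            · rw [q1, if_pos rfl]
            · intro j _ hj
              rw [q1, if_neg (Ne.symm hj)]
            · exact fun h => absurd (Finset.mem_range.2 hi) h
          · rw [q2 i (by omega), zero_mul]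
        rw [e1, e2]
      calc rR hρ g * q i = homR hρ g * P * q i := by rw [hP, homR_p]
        _ = homR hρ g * (q i * P) := by rw [mul_assoc, h3]
        _ = q i * homR hρ g * P := by rw [← mul_assoc, h2]
        _ = q i * rR hρ g := by rw [mul_assoc, hP, homR_p]
    exact (congrArg Subtype.val h1).symm

end Pool.Agent.U3.MQ
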