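import Pool.Agent.U3.MQ.Power

/-!
# Chow-Kunneth decompositions of motives with finite groups, tensor products, summands
-/

set_option autoImplicit false

open CategoryTheory AlgebraicGeometry

universe u v w

namespace Pool.Agent.U3.MQ

open Pool.Agent.H914 Pool.Agent.H914.VarClass Pool.Agent.H914.VarClass.Obj Pool.Agent.W492.BB
  Pool.Agent.W550.Corr Pool.Agent.TH133 Pool.Agent.TH829.Kim Pool.Agent.U3.SD Pool.Agent.U981.EQ
  Pool.Agent.U3.QP Pool.Agent.U3.UC

set_option linter.unusedSectionVars false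

variable {k : Type u} [Field k] {𝒱 : VarClass k}

variable {C : TheoryData.{u, v, 0} 𝒱 ℚ} {K : Type w} [Field K]
  {H : WeilTheoryData.{u, v, w} C K} {X Y Z : 𝒱.Obj}
  [hC : IsChowProj C] [hH : IsWeilProj H]

include hC hH

theorem eqCKp_of_built {G : Type} [Group G] {X : 𝒱.Obj} {p : C.A (X.prod X)}
    {ρ : G → C.A (X.prod X)} (h : BuiltMot H G X p ρ) : EqCKp H p ρ := by
  induction h with
  | finite hρ hX => exact eqCKp_base hρ hX
  | tensor _ _ ih ih' => exact eqCKp_tensor ih ih'
  | dual _ ih => exact eqCKp_dual ih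
  | power _ hp hτ ih => exact eqCKp_power hp hτ ih
  | sum _ hs hτ ih => exact eqCKp_sum (H := H) hs hτ ih

/-- All twists of the motive. -/
theorem motiveCK_of {p : C.A (X.prod X)} {π : ℕ → C.A (X.prod X)} (h : CKp H p π) (n : ℤ) :
    IsMotiveCK H p n fun i =>
      if i - 2 * n ≤ 2 * X.dim then π (2 * X.dim - (i - 2 * n)).toNat else 0 := by
  have hmul : ∀ i j : ℤ, C.comp
      (if i - 2 * n ≤ 2 * X.dim then π (2 * X.dim - (i - 2 * n)).toNat else 0)
      (if j - 2 * n ≤ 2 * X.dim then π (2 * X.dim - (j - 2 * n)).toNat else 0) =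
      if i = j then (if i - 2 * n ≤ 2 * X.dim then π (2 * X.dim - (i - 2 * n)).toNat else 0)
        else 0 := by
    intro i j
    by_cases hi : i - 2 * n ≤ 2 * X.dim
    · by_cases hj : j - 2 * n ≤ 2 * X.dim
      · rw [if_pos hi, if_pos hj, h.mul]
        by_cases hij : i = j
        · rw [if_pos hij, if_pos (by rw [hij])]
        · rw [if_neg hij, if_neg (by omega)]
      · rw [if_neg hj, comp_zero, if_neg (by omega)]
    · rw [if_neg hi, zero_comp]
      split_ifs <;> rfl
  refine ⟨?_, ?_, ?_, ?_, ?_, ?_, ?_⟩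
  · refine (Set.finite_Icc (2 * n) (2 * n + 2 * X.dim)).subset fun i hi => ?_
    rw [Set.mem_setOf_eq] at hi
    rw [Set.mem_Icc]
    by_contra hcon
    apply hi
    by_cases hi1 : i - 2 * n ≤ 2 * X.dim
    · rw [if_pos hi1]
      exact h.out _ (by omega)
    · rw [if_neg hi1]
  · intro i
    split_ifs
    · exact h.deg _
    · exact Submodule.zero_mem _
  · intro i
    have := hmul i i
    rw [if_pos (rfl : i = i)] at this
    exact this
  · intro i j hij
    have := hmul i j
    rw [if_neg hij] at this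
    exact this
  · have e1 : (∑ᶠ i : ℤ, (if i - 2 * n ≤ 2 * X.dim then π (2 * X.dim - (i - 2 * n)).toNat
        else 0)) = ∑ᶠ c : ℤ, (if 0 ≤ c then π c.toNat else 0) := by
      rw [← finsum_comp_equiv (Equiv.subLeft (2 * X.dim + 2 * n : ℤ))]
      refine finsum_congr fun i => ?_
      rw [Equiv.subLeft_apply]
      by_cases hi : 0 ≤ i
      · rw [if_pos hi, if_pos (by omega)]
        congr 2
        omega
      · rw [if_neg hi, if_neg (by omega)]
    rw [e1, finsum_eq_sum_of_support_subset (s := (Finset.range (2 * X.dim + 1)).map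
      ⟨fun i : ℕ => (i : ℤ), Nat.cast_injective⟩), Finset.sum_map]
    · rw [← h.sum]
      refine Finset.sum_congr rfl fun i _ => ?_
      simp only [Function.Embedding.coeFn_mk]
      rw [if_pos (Int.natCast_nonneg i), Int.toNat_natCast]
    · intro c hc
      rw [Function.mem_support] at hc
      rw [Finset.coe_map, Set.mem_image]
      by_cases hc0 : 0 ≤ c
      · rw [if_pos hc0] at hc
        refine ⟨c.toNat, ?_, ?_⟩
        · rw [Finset.mem_coe, Finset.mem_range]
          by_contra hcon
          exact hc (h.out _ (by omega))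
        · simp only [Function.Embedding.coeFn_mk]
          omega
      · rw [if_neg hc0] at hc
        exact absurd rfl hc
  · intro i a ha
    by_cases hi : i - 2 * n ≤ 2 * X.dim
    · rw [if_pos hi, h.act _ _ a ha, if_pos (by omega)]
    · have ha0 : a = 0 := by
        by_contra hne
        have := nonneg_of_mem H ha hne
        omega
      rw [ha0, H.act_map_zero, H.act_map_zero]
  · intro i m a hm ha
    by_cases hi : i - 2 * n ≤ 2 * X.dim
    · rw [if_pos hi, h.act _ _ a ha, if_neg (by omega)]
    · rw [if_neg hi, map_zero]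
      exact H.act_zero a

/-- **Equivariant Chow-Kunneth decompositions of motives.** -/
theorem exists_motiveCK {G : Type} [Group G] {X : 𝒱.Obj} {p : C.A (X.prod X)}
    {ρ : G → C.A (X.prod X)} (h : BuiltMot H G X p ρ) (n : ℤ) :
    ∃ π : ℤ → C.A (X.prod X), IsMotiveCK H p n π ∧
      ∀ g i, C.comp (ρ g) (π i) = C.comp (π i) (ρ g) := by
  obtain ⟨π, hπ, hg⟩ := eqCKp_of_built h
  refine ⟨_, motiveCK_of hπ n, fun g i => ?_⟩
  split_ifs
  · exact hg g _
  · rw [comp_zero, zero_comp]

end Pool.Agent.U3.MQ
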