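import Pool.Agent.U3.MQ.Sum

/-!
# Powers
-/

set_option autoImplicit false

open CategoryTheory AlgebraicGeometry

universe u v w

namespace Pool.Agent.U3.MQ

open Pool.Agent.H914 Pool.Agent.H914.VarClass Pool.Agent.H914.VarClass.Obj Pool.Agent.W492.BB
  Pool.Agent.W550.Corr Pool.Agent.TH133 Pool.Agent.TH829.Kim Pool.Agent.U3.SD Pool.Agent.U981.EQ
  Pool.Agent.U3.QP Pool.Agent.Y133.Half Pool.Agent.Y107

set_option linter.unusedSectionVars false

variable {k : Type u} [Field k] {𝒱 : VarClass k}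

variable {C : TheoryData.{u, v, 0} 𝒱 ℚ} {K : Type w} [Field K]
  {H : WeilTheoryData.{u, v, w} C K} {X Y Z : 𝒱.Obj}
  [hC : IsChowProj C] [hH : IsWeilProj H] {G : Type} [Group G]

include hC hH

lemma CKp.left {p : C.A (X.prod X)} {π : ℕ → C.A (X.prod X)} (h : CKp H p π) (i : ℕ) :
    C.comp p (π i) = π i := by
  rw [← h.sum, sum_comp]
  by_cases hi : i < 2 * X.dim + 1
  · rw [Finset.sum_eq_single i]
    · rw [h.mul, if_pos rfl]
    · intro j _ hj
      rw [h.mul, if_neg hj]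
    · exact fun h => absurd (Finset.mem_range.2 hi) h
  · rw [h.out i (by omega)]
    exact Finset.sum_eq_zero fun j _ => by rw [comp_zero]

lemma CKp.right {p : C.A (X.prod X)} {π : ℕ → C.A (X.prod X)} (h : CKp H p π) (i : ℕ) :
    C.comp (π i) p = π i := by
  rw [← h.sum, comp_sum]
  by_cases hi : i < 2 * X.dim + 1
  · rw [Finset.sum_eq_single i]
    · rw [h.mul, if_pos rfl]
    · intro j _ hj
      rw [h.mul, if_neg (Ne.symm hj)]
    · exact fun h => absurd (Finset.mem_range.2 hi) h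
  · rw [h.out i (by omega)]
    exact Finset.sum_eq_zero fun j _ => by rw [zero_comp]

lemma CKp.idem {p : C.A (X.prod X)} {π : ℕ → C.A (X.prod X)} (h : CKp H p π) :
    C.comp p p = p := by
  have : C.comp p (∑ i ∈ Finset.range (2 * X.dim + 1), π i) =
      ∑ i ∈ Finset.range (2 * X.dim + 1), π i := by
    rw [comp_sum]
    exact Finset.sum_congr rfl fun i _ => h.left i
  rwa [h.sum] at this

lemma CKp.comm {p : C.A (X.prod X)} {π : ℕ → C.A (X.prod X)} (h : CKp H p π)
    {x : C.A (X.prod X)} (hx : ∀ i, C.comp x (π i) = C.comp (π i) x) :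
    C.comp x p = C.comp p x := by
  rw [← h.sum, sum_comp, comp_sum]
  exact Finset.sum_congr rfl fun i _ => hx i

lemma CKp.mem {p : C.A (X.prod X)} {π : ℕ → C.A (X.prod X)} (h : CKp H p π) :
    p ∈ C.gr (X.prod X) X.dim := by
  rw [← h.sum]
  exact Submodule.sum_mem _ fun i _ => h.deg i

/-- The decomposition of a power. -/
lemma ckp_pw {p : C.A (X.prod X)} {π : ℕ → C.A (X.prod X)} (h : CKp H p π) :
    ∀ n, CKp H (tensN C X n fun _ => p) (pwCK C π n)
  | 0 => by
    rw [pwCK_zero]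
    exact h
  | n + 1 => by
    rw [pwCK_succ]
    exact (ckp_pw h n).prod h

/-- Powers. -/
theorem eqCKp_power {P : 𝒱.Obj} {G' : Type} {e : C.A (X.prod X)} {ρ : G' → C.A (X.prod X)}
    {n : ℕ} {p : Fin (n + 1) → (P ⟶ X)} {τ : G → C.A (P.prod P)} (hp : IsPower p)
    (hτ : ∀ g, ∃ (σ : Equiv.Perm (Fin (n + 1))) (u : Fin (n + 1) → G') (t : P ⟶ P),
      (∀ i, t ≫ p i = p (σ i)) ∧ τ g = C.comp (C.graph t)
        (List.ofFn fun i => C.pull (prodMap (p i) (p i)) (ρ (u i))).prod)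
    (h : EqCKp H e ρ) :
    EqCKp H (List.ofFn fun i => C.pull (prodMap (p i) (p i)) e).prod τ := by
  obtain ⟨π, hπ, hg⟩ := h
  have hφ : ∀ i, liftN X n p ≫ prj X n i = p i := liftN_prj n p
  obtain ⟨ψ, hψ, -⟩ := hp (pw X n) (prj X n)
  have h2 : ψ ≫ liftN X n p = 𝟙 _ := by
    apply hom_ext_prj
    intro i
    rw [Category.assoc, hφ, hψ, Category.id_comp]
  have h1 : liftN X n p ≫ ψ = 𝟙 P := by
    obtain ⟨χ, -, hu⟩ := hp P p
    rw [hu (liftN X n p ≫ ψ) (fun i => by rw [Category.assoc, hψ, hφ]),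
      hu (𝟙 P) (fun i => Category.id_comp _)]
  have hdim : P.dim = (pw X n).dim := dim_eq_of_iso (H := H) h1 h2
  have d1 : C.comp (C.graph (liftN X n p)) (C.graph ψ) = dg C P := by
    rw [graph_comp_graph, h1]
    rfl
  have d2 : C.comp (C.graph ψ) (C.graph (liftN X n p)) = dg C (pw X n) := by
    rw [graph_comp_graph, h2]
    rfl
  set φ := C.graph (liftN X n p) with hφdef
  set Ψ := C.graph ψ with hΨ
  set E : C.A ((pw X n).prod (pw X n)) := tensN C X n fun _ => e with hE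
  have hck := ckp_pw hπ n
  have hEE : C.comp E E = E := hck.idem
  have hEdeg : E ∈ C.gr ((pw X n).prod (pw X n)) (pw X n).dim := hck.mem
  have hφdeg : φ ∈ C.gr (P.prod (pw X n)) P.dim := graph_mem _ hdim
  have hΨdeg : Ψ ∈ C.gr ((pw X n).prod P) (pw X n).dim := graph_mem _ hdim.symm
  set eP : C.A (P.prod P) := (List.ofFn fun i => C.pull (prodMap (p i) (p i)) e).prod with heP
  have hconj : ∀ Γ : Fin (n + 1) → C.A (X.prod X), C.comp (C.comp Ψ
      (List.ofFn fun i => C.pull (prodMap (p i) (p i)) (Γ i)).prod) φ = tensN C X n Γ := by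
    intro Γ
    rw [Lp_eq]
    exact conj_Lp _ ψ h1 h2 hψ Γ
  have heP1 : C.comp Ψ eP = C.comp E Ψ := by
    have h3 := hconj fun _ => e
    rw [← heP, ← hE] at h3
    rw [← h3, comp_assoc C (C.comp Ψ eP), d1, comp_dg]
  have heP2 : C.comp eP φ = C.comp φ E := by
    have h3 := hconj fun _ => e
    rw [← heP, ← hE] at h3
    rw [← h3, comp_assoc C Ψ, ← comp_assoc C φ, d1, dg_comp]
  have heP3 : eP = C.comp (C.comp φ E) Ψ := by
    rw [← heP2, comp_assoc C, d1, comp_dg]
  let τ' : Option G → C.A ((pw X n).prod (pw X n)) := fun o => o.elim E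
    (fun g => C.comp (C.comp Ψ (τ g)) φ)
  have hτ'eq : ∀ g, ∃ (σ : Equiv.Perm (Fin (n + 1))) (u : Fin (n + 1) → G'),
      C.comp (C.comp Ψ (τ g)) φ =
        C.comp (C.graph (tau X n σ)) (tensN C X n fun i => ρ (u i)) := by
    intro g
    obtain ⟨σ, u, t, ht, h3⟩ := hτ g
    refine ⟨σ, u, ?_⟩
    have h4 : ψ ≫ t = tau X n σ ≫ ψ := by
      have h5 : (ψ ≫ t) ≫ liftN X n p = tau X n σ := by
        apply hom_ext_prj
        intro i
        rw [Category.assoc, hφ, Category.assoc, ht, hψ, tau_prj]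
      rw [← h5, Category.assoc, h1, Category.comp_id]
    rw [h3, ← comp_assoc C Ψ, hΨ, graph_comp_graph, h4, ← graph_comp_graph,
      comp_assoc C (C.graph (tau X n σ)), comp_assoc C (C.graph (tau X n σ)), ← hΨ, hconj]
  have hcommτ : ∀ g m, C.comp (C.comp (C.comp Ψ (τ g)) φ) (pwCK C π n m) =
      C.comp (pwCK C π n m) (C.comp (C.comp Ψ (τ g)) φ) := by
    intro g m
    obtain ⟨σ, u, h3⟩ := hτ'eq g
    exact eqCK_power hg n h3 m
  have hEτ : ∀ g, C.comp (C.comp (C.comp Ψ (τ g)) φ) E =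
      C.comp E (C.comp (C.comp Ψ (τ g)) φ) := fun g => hck.comm (hcommτ g)
  have hs : IsMotSum C eP (T := Unit) (W := fun _ => pw X n) (fun _ => E) (fun _ => 0)
      (fun _ => C.comp φ E) (fun _ => C.comp E Ψ) (G := fun _ => Option G) (fun _ => τ') := by
    refine ⟨fun _ => ?_, fun _ => ?_, fun _ => ⟨?_, ?_⟩, fun _ => ⟨?_, ?_⟩, fun _ => ?_,
      fun t t' h => ?_, ?_⟩
    · have h3 := comp_mem C (X := P) (Y := pw X n) (Z := pw X n) (e := 0) (e' := 0)
        (by rw [add_zero]; exact hφdeg) (by rw [add_zero]; exact hEdeg)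
      rw [add_zero, add_zero] at h3
      rw [sub_zero]
      exact h3
    · have h3 := comp_mem C (X := pw X n) (Y := pw X n) (Z := P) (e := 0) (e' := 0)
        (by rw [add_zero]; exact hEdeg) (by rw [add_zero]; exact hΨdeg)
      rw [add_zero, add_zero] at h3
      rw [add_zero]
      exact h3
    · rw [← comp_assoc C, heP2, comp_assoc C, hEE]
    · rw [comp_assoc C, hEE]
    · rw [← comp_assoc C, hEE]
    · rw [comp_assoc C, heP1, ← comp_assoc C, hEE]
    · have e1 : C.comp (C.comp E Ψ) (C.comp φ E) = E := by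
        rw [comp_assoc C, ← comp_assoc C Ψ, d2, dg_comp, hEE]
      rw [e1]
      exact Submodule.subset_span ⟨none, rfl⟩
    · exact absurd (Subsingleton.elim t t') h
    · rw [Fintype.sum_unique, comp_assoc C φ, ← comp_assoc C E, hEE, ← comp_assoc C φ, ← heP3]
  refine eqCKp_sum (H := H) hs (fun g _ => ⟨some g, ?_, ?_⟩)
    (fun _ => ⟨pwCK C π n, hck, fun o m => ?_⟩)
  · change C.comp (τ g) (C.comp φ E) = C.comp (C.comp φ E) (C.comp (C.comp Ψ (τ g)) φ)
    rw [comp_assoc C φ, ← hEτ g, comp_assoc C Ψ, comp_assoc C Ψ, ← comp_assoc C φ, d1, dg_comp,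
      comp_assoc C]
  · change C.comp (C.comp E Ψ) (τ g) = C.comp (C.comp (C.comp Ψ (τ g)) φ) (C.comp E Ψ)
    rw [← comp_assoc C _ E, hEτ g, comp_assoc C E, comp_assoc C E, comp_assoc C _ φ, d1, comp_dg]
  · cases o with
    | none => exact (hck.left m).trans (hck.right m).symm
    | some g => exact hcommτ g m

end Pool.Agent.U3.MQ
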