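import Pool.Agent.U3.QP.Ring

/-!
# Lifts of families of orthogonal idempotents below an idempotent, all but one of them small
-/

set_option autoImplicit false
set_option linter.unusedSectionVars false

open MulOpposite

universe u v

namespace Pool.Agent.U3.MQ

open Pool.Agent.U3.SD Pool.Agent.U3.QP

section double

variable (R : Type u) [Ring R]

/-- The exchange involution of `R × Rᵐᵒᵖ`. -/
def dbl : (R × Rᵐᵒᵖ) →+ (R × Rᵐᵒᵖ) where
  toFun x := (unop x.2, op x.1)
  map_zero' := by ext <;> simp
  map_add' x y := by ext <;> simp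

lemma dbl_apply (x : R × Rᵐᵒᵖ) : dbl R x = (unop x.2, op x.1) := rfl

lemma isInv_dbl [Algebra ℚ R] : IsInv (dbl R) where
  mul x y := by
    rw [dbl_apply, dbl_apply, dbl_apply]
    ext
    · simp
    · simp
  inv x := by
    rw [dbl_apply, dbl_apply]
    ext <;> simp

end double

variable {R : Type u} [Ring R] [Algebra ℚ R] {S : Type v} [Ring S]

lemma isIdl_dbl (φ : R →+* S) :
    IsIdl (dbl R) (fun x : R × Rᵐᵒᵖ => φ x.1 = 0 ∧ φ (unop x.2) = 0) where
  zero := ⟨map_zero φ, by rw [Prod.snd_zero, unop_zero, map_zero]⟩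
  add := fun {a b} h h' => ⟨by rw [Prod.fst_add, map_add, h.1, h'.1, add_zero],
    by rw [Prod.snd_add, unop_add, map_add, h.2, h'.2, add_zero]⟩
  neg := fun {a} h => ⟨by rw [Prod.fst_neg, map_neg, h.1, neg_zero],
    by rw [Prod.snd_neg, unop_neg, map_neg, h.2, neg_zero]⟩
  left := fun {a} r h => ⟨by rw [Prod.fst_mul, map_mul, h.1, mul_zero],
    by rw [Prod.snd_mul, unop_mul, map_mul, h.2, zero_mul]⟩
  right := fun {a} r h => ⟨by rw [Prod.fst_mul, map_mul, h.1, zero_mul],
    by rw [Prod.snd_mul, unop_mul, map_mul, h.2, mul_zero]⟩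
  inv := fun {a} h => ⟨h.2, h.1⟩

variable {G : Type} [Group G] [Fintype G]

/-- **Equivariant lifts** (no involution). -/
theorem exists_lift (φ : R →+* S) (ρ : G →* R) (d : ℕ) (a : ℕ → R)
    (h1 : ∀ m < d, ∀ n < d, φ (a m * a n) = if m = n then φ (a m) else 0)
    (h4 : ∀ n < d, ∃ I : Submodule ℚ R, (∀ r j, φ j = 0 → r * a n * j ∈ I) ∧
      ∀ x ∈ I, IsNilpotent x)
    (h5 : ∀ n < d, ∀ g, φ (ρ g * a n) = φ (a n * ρ g)) :
    ∃ q : ℕ → R, (∀ m < d, ∀ n < d, q m * q n = if m = n then q m else 0) ∧
      (∀ n < d, φ (q n) = φ (a n)) ∧ ∀ n g, ρ g * q n = q n * ρ g := by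
  let ρ' : G →* R × Rᵐᵒᵖ :=
    { toFun := fun g => (ρ g, op (ρ g⁻¹))
      map_one' := by
        rw [inv_one, map_one]
        rfl
      map_mul' := fun g h => by
        ext
        · simp
        · simp }
  have hρ' : ∀ g, ρ' g = (ρ g, op (ρ g⁻¹)) := fun g => rfl
  obtain ⟨q, q1, -, -, q4, q5⟩ := exists_half_eq (isInv_dbl R) (isIdl_dbl φ) ρ'
    (fun g => by
      rw [dbl_apply, hρ', hρ', inv_inv]
      rfl) d (fun n => (a n, 0))
    (fun m hm n hn => by
      have := h1 m hm n hn
      by_cases hmn : m = n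
      · rw [if_pos hmn] at this ⊢
        refine ⟨?_, ?_⟩
        · rw [Prod.fst_sub, Prod.fst_mul, map_sub, this, sub_self]
        · simp
      · rw [if_neg hmn] at this ⊢
        refine ⟨?_, ?_⟩
        · rw [sub_zero, Prod.fst_mul, this]
        · simp)
    (fun m hm n hn => by
      rw [dbl_apply]
      constructor <;> simp)
    (fun m hm n hn => by
      rw [dbl_apply]
      constructor <;> simp)
    (fun n hn => by
      obtain ⟨I, hI, hnil⟩ := h4 n hn
      refine ⟨I.prod ⊥, fun r j hj => ?_, fun x hx => ?_⟩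
      · refine ⟨hI _ _ hj.1, ?_⟩
        simp
      · obtain ⟨N, hN⟩ := hnil x.1 hx.1
        have h0 : x.2 = 0 := hx.2
        refine ⟨N + 1, ?_⟩
        ext
        · rw [Prod.pow_fst, pow_succ, hN, zero_mul]
          rfl
        · rw [Prod.pow_snd, h0, pow_succ, mul_zero]
          rfl)
    (fun n hn g => by
      refine ⟨?_, ?_⟩
      · rw [Prod.fst_sub, Prod.fst_mul, Prod.fst_mul, map_sub, sub_eq_zero]
        exact h5 n hn g
      · simp)
  refine ⟨fun n => (q n).1, fun m hm n hn => ?_, fun n hn => ?_, fun n g => ?_⟩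
  · have := congrArg Prod.fst (q1 m hm n hn)
    by_cases hmn : m = n
    · rw [if_pos hmn] at this ⊢; exact this
    · rw [if_neg hmn] at this ⊢; exact this
  · have := (q4 n hn).1
    rw [Prod.fst_sub, map_sub, sub_eq_zero] at this
    exact this
  · exact congrArg Prod.fst (q5 n g)

/-- **Equivariant decompositions of an idempotent `p` all of whose summands but one are small.** -/
theorem exists_decomp (φ : R →+* S) (ρ : G →* R) {p : R} (hp : p * p = p)
    (hρ : ∀ g, ρ g * p = p * ρ g) {N m : ℕ} (hm : m < N) (a : ℕ → R)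
    (h1 : ∀ i < N, i ≠ m → ∀ j < N, j ≠ m → φ (a i * a j) = if i = j then φ (a i) else 0)
    (h2 : ∀ i < N, i ≠ m → φ (p * a i) = φ (a i) ∧ φ (a i * p) = φ (a i))
    (h4 : ∀ i < N, i ≠ m → ∃ I : Submodule ℚ R, (∀ r j, φ j = 0 → r * a i * j ∈ I) ∧
      ∀ x ∈ I, IsNilpotent x)
    (h5 : ∀ i < N, i ≠ m → ∀ g, φ (ρ g * a i) = φ (a i * ρ g)) :
    ∃ q : ℕ → R, (∀ i j, q i * q j = if i = j then q i else 0) ∧
      (∀ i, N ≤ i → q i = 0) ∧ ∑ i ∈ Finset.range N, q i = p ∧
      (∀ i < N, i ≠ m → φ (q i) = φ (a i)) ∧ ∀ i g, ρ g * q i = q i * ρ g := by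
  classical
  let A : Subalgebra ℚ R := Subalgebra.centralizer ℚ {p}
  have hA : ∀ x : R, x ∈ A ↔ p * x = x * p := by
    intro x
    change x ∈ Subalgebra.centralizer ℚ {p} ↔ _
    rw [Subalgebra.mem_centralizer_iff]
    constructor
    · intro h
      exact h _ rfl
    · rintro h _ rfl
      exact h
  have hpa : ∀ i, p * a i * p ∈ A := by
    intro i
    rw [hA, ← mul_assoc, ← mul_assoc, hp, mul_assoc (p * a i), hp]
  have hφ : ∀ i < N, i ≠ m → φ (p * a i * p) = φ (a i) := by
    intro i hi him
    rw [map_mul, (h2 i hi him).1, ← map_mul, (h2 i hi him).2]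
  let φA : A →+* S := φ.comp A.toSubring.subtype
  have hφA : ∀ x : A, φA x = φ x := fun x => rfl
  let ρA : G →* A :=
    { toFun := fun g => ⟨ρ g, (hA _).2 (hρ g).symm⟩
      map_one' := Subtype.ext (map_one ρ)
      map_mul' := fun g h => Subtype.ext (map_mul ρ g h) }
  let aA : ℕ → A := fun i => if i = m then 0 else ⟨p * a i * p, hpa i⟩
  have haA : ∀ i, i ≠ m → ((aA i : A) : R) = p * a i * p := fun i hi => by
    simp only [aA]
    rw [if_neg hi]
  have haA' : aA m = 0 := if_pos rfl
  obtain ⟨q, q1, q2, q3⟩ := exists_lift φA ρA N aA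
    (fun i hi j hj => by
      by_cases him : i = m
      · subst him
        rw [haA', zero_mul]
        split_ifs <;> simp
      · by_cases hjm : j = m
        · subst hjm
          rw [haA', mul_zero, if_neg him, map_zero]
        · have h := h1 i hi him j hj hjm
          rw [hφA, hφA, MulMemClass.coe_mul, haA i him, haA j hjm, map_mul, hφ i hi him,
            hφ j hj hjm, ← map_mul, h])
    (fun i hi => by
      by_cases him : i = m
      · subst him
        refine ⟨⊥, fun r j _ => ?_, fun x hx => ?_⟩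
        · rw [haA', mul_zero, zero_mul]
          exact Submodule.zero_mem _
        · rw [(Submodule.mem_bot _).1 hx]
          exact IsNilpotent.zero
      · obtain ⟨I, hI, hnil⟩ := h4 i hi him
        refine ⟨I.comap A.val.toLinearMap, fun r j hj => ?_, fun x hx => ?_⟩
        · have e : (((r * aA i * j : A)) : R) = ((r : R) * p) * a i * (p * (j : R)) := by
            rw [MulMemClass.coe_mul, MulMemClass.coe_mul, haA i him]
            simp only [mul_assoc]
          change (((r * aA i * j : A)) : R) ∈ I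
          rw [e]
          refine hI _ _ ?_
          rw [map_mul]
          have : φ (j : R) = 0 := hj
          rw [this, mul_zero]
        · obtain ⟨n, hn⟩ := hnil _ (show (x : R) ∈ I from hx)
          exact ⟨n, Subtype.ext hn⟩)
    (fun i hi g => by
      by_cases him : i = m
      · subst him
        rw [haA', zero_mul, mul_zero]
      · rw [hφA, hφA, MulMemClass.coe_mul, MulMemClass.coe_mul, haA i him,
          map_mul φ ((ρA g : A) : R), map_mul φ _ ((ρA g : A) : R), hφ i hi him, ← map_mul,
          ← map_mul]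
        exact h5 i hi him g)
  have hqp : ∀ i, p * (q i : R) = (q i : R) * p := fun i => (hA _).1 (q i).2
  have hqq : ∀ i < N, ∀ j < N, (q i : R) * (q j : R) = if i = j then (q i : R) else 0 := by
    intro i hi j hj
    have := congrArg (fun x : A => (x : R)) (q1 i hi j hj)
    by_cases hij : i = j
    · rw [if_pos hij] at this ⊢; exact this
    · rw [if_neg hij] at this ⊢; exact this
  have hqρ : ∀ i g, ρ g * (q i : R) = (q i : R) * ρ g := fun i g =>
    congrArg (fun x : A => (x : R)) (q3 i g)
  set s : Finset ℕ := (Finset.range N).erase m with hs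
  have hmem : ∀ i, i ∈ s ↔ i ≠ m ∧ i < N := fun i => by rw [hs, Finset.mem_erase, Finset.mem_range]
  let f : ℕ → R := fun i => (q i : R) * p
  have hf : ∀ i < N, ∀ j < N, f i * f j = if i = j then f i else 0 := by
    intro i hi j hj
    have e : f i * f j = ((q i : R) * (q j : R)) * p := by
      simp only [f]
      calc (q i : R) * p * ((q j : R) * p) = (q i : R) * (p * (q j : R)) * p := by
            simp only [mul_assoc]
        _ = (q i : R) * (q j : R) * (p * p) := by rw [hqp]; simp only [mul_assoc]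
        _ = _ := by rw [hp]
    rw [e, hqq i hi j hj]
    split_ifs
    · rfl
    · rw [zero_mul]
  have hpf : ∀ i, p * f i = f i := fun i => by
    simp only [f]
    rw [← mul_assoc, hqp, mul_assoc, hp]
  have hfp : ∀ i, f i * p = f i := fun i => by
    simp only [f]
    rw [mul_assoc, hp]
  have hfρ : ∀ i g, ρ g * f i = f i * ρ g := fun i g => by
    simp only [f]
    rw [← mul_assoc, hqρ, mul_assoc, hρ, ← mul_assoc]
  set F : R := ∑ i ∈ s, f i with hF
  have hFf : ∀ j ∈ s, F * f j = f j := by
    intro j hj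
    rw [hF, Finset.sum_mul, Finset.sum_eq_single j]
    · rw [hf j ((hmem j).1 hj).2 j ((hmem j).1 hj).2, if_pos rfl]
    · intro i hi hij
      rw [hf i ((hmem i).1 hi).2 j ((hmem j).1 hj).2, if_neg hij]
    · exact fun h => absurd hj h
  have hfF : ∀ j ∈ s, f j * F = f j := by
    intro j hj
    rw [hF, Finset.mul_sum, Finset.sum_eq_single j]
    · rw [hf j ((hmem j).1 hj).2 j ((hmem j).1 hj).2, if_pos rfl]
    · intro i hi hij
      rw [hf j ((hmem j).1 hj).2 i ((hmem i).1 hi).2, if_neg (Ne.symm hij)]
    · exact fun h => absurd hj h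
  have hFF : F * F = F := by
    conv_lhs => rw [hF]
    rw [Finset.sum_mul, Finset.sum_congr rfl hfF]
  have hpF : p * F = F := by
    rw [hF, Finset.mul_sum]
    exact Finset.sum_congr rfl fun i _ => hpf i
  have hFp : F * p = F := by
    rw [hF, Finset.sum_mul]
    exact Finset.sum_congr rfl fun i _ => hfp i
  have hFρ : ∀ g, ρ g * F = F * ρ g := fun g => by
    rw [hF, Finset.sum_mul, Finset.mul_sum]
    exact Finset.sum_congr rfl fun i _ => hfρ i g
  have hmm : (p - F) * (p - F) = p - F := by
    rw [sub_mul, mul_sub, mul_sub, hp, hpF, hFp, hFF]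
    abel
  refine ⟨fun i => if i = m then p - F else if i < N then f i else 0, ?_, ?_, ?_, ?_, ?_⟩
  · intro i j
    by_cases him : i = m
    · by_cases hjm : j = m
      · simp only [if_pos him, if_pos hjm, if_pos (him.trans hjm.symm)]
        exact hmm
      · have hij : i ≠ j := fun h => hjm (h ▸ him)
        simp only [if_pos him, if_neg hjm, if_neg hij]
        split_ifs with hj
        · rw [sub_mul, hpf, hFf j ((hmem j).2 ⟨hjm, hj⟩), sub_self]
        · rw [mul_zero]
    · by_cases hjm : j = m
      · have hij : i ≠ j := fun h => him (h.trans hjm)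
        simp only [if_neg him, if_pos hjm, if_neg hij]
        split_ifs with hi
        · rw [mul_sub, hfp, hfF i ((hmem i).2 ⟨him, hi⟩), sub_self]
        · rw [zero_mul]
      · simp only [if_neg him, if_neg hjm]
        by_cases hi : i < N
        · by_cases hj : j < N
          · rw [if_pos hi, if_pos hj, hf i hi j hj]
          · rw [if_pos hi, if_neg hj, mul_zero, if_neg (by omega)]
        · rw [if_neg hi, zero_mul]
          split_ifs <;> rfl
  · intro i hi
    simp only
    rw [if_neg (by omega), if_neg (by omega)]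
  · rw [← Finset.add_sum_erase _ _ (Finset.mem_range.2 hm), ← hs]
    have e1 : ∑ x ∈ s, (if x = m then p - F else if x < N then f x else 0) = F := by
      rw [hF]
      refine Finset.sum_congr rfl fun i hi => ?_
      rw [hmem] at hi
      rw [if_neg hi.1, if_pos hi.2]
    rw [if_pos rfl, e1]
    abel
  · intro i hi him
    simp only
    rw [if_neg him, if_pos hi]
    simp only [f]
    have e1 := q2 i hi
    rw [hφA, hφA, haA i him, hφ i hi him] at e1
    rw [map_mul, e1, ← map_mul, (h2 i hi him).2]
  · intro i g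
    simp only
    split_ifs
    · rw [mul_sub, sub_mul, hρ, hFρ]
    · exact hfρ i g
    · rw [mul_zero, zero_mul]

end Pool.Agent.U3.MQ
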