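import Pool.Agent.U3.MQ.Tens

/-!
# Sums of twisted summands
-/

set_option autoImplicit false

open CategoryTheory AlgebraicGeometry

universe u v w

namespace Pool.Agent.U3.MQ

open Pool.Agent.H914 Pool.Agent.H914.VarClass Pool.Agent.H914.VarClass.Obj Pool.Agent.W492.BB
  Pool.Agent.W550.Corr Pool.Agent.TH133 Pool.Agent.TH829.Kim Pool.Agent.U3.SD Pool.Agent.U981.EQ
  Pool.Agent.U3.QP

set_option linter.unusedSectionVars false

/-- Put the complement into degree zero. -/
lemma normalise {R : Type*} [Ring R] {e : R} (he : e * e = e) (N : ℕ) (Q : ℕ → R)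
    (hQ : ∀ i j, Q i * Q j = if i = j then Q i else 0) (h1 : ∀ i, e * Q i = Q i)
    (h2 : ∀ i, Q i * e = Q i) : ∃ f : ℕ → R,
      (∀ i j, f i * f j = if i = j then f i else 0) ∧ (∀ i, N < i → f i = 0) ∧
      ∑ i ∈ Finset.range (N + 1), f i = e ∧ (∀ i, i ≠ 0 → i ≤ N → f i = Q i) ∧
      f 0 = e - ∑ i ∈ (Finset.range (N + 1)).erase 0, Q i := by
  classical
  set s : Finset ℕ := (Finset.range (N + 1)).erase 0 with hs
  have hmem : ∀ i, i ∈ s ↔ i ≠ 0 ∧ i < N + 1 := fun i => by
    rw [hs, Finset.mem_erase, Finset.mem_range]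
  set F : R := ∑ i ∈ s, Q i with hF
  have hFQ : ∀ j ∈ s, F * Q j = Q j := by
    intro j hj
    rw [hF, Finset.sum_mul, Finset.sum_eq_single j]
    · rw [hQ, if_pos rfl]
    · intro i _ hij
      rw [hQ, if_neg hij]
    · exact fun h => absurd hj h
  have hQF : ∀ j ∈ s, Q j * F = Q j := by
    intro j hj
    rw [hF, Finset.mul_sum, Finset.sum_eq_single j]
    · rw [hQ, if_pos rfl]
    · intro i _ hij
      rw [hQ, if_neg (Ne.symm hij)]
    · exact fun h => absurd hj h
  have hFF : F * F = F := by
    conv_lhs => rw [hF]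
    rw [Finset.sum_mul, Finset.sum_congr rfl hQF]
  have heF : e * F = F := by
    rw [hF, Finset.mul_sum]
    exact Finset.sum_congr rfl fun i _ => h1 i
  have hFe : F * e = F := by
    rw [hF, Finset.sum_mul]
    exact Finset.sum_congr rfl fun i _ => h2 i
  refine ⟨fun i => if i = 0 then e - F else if i < N + 1 then Q i else 0, ?_, ?_, ?_, ?_, ?_⟩
  · intro i j
    by_cases hi0 : i = 0
    · by_cases hj0 : j = 0
      · simp only [if_pos hi0, if_pos hj0, if_pos (hi0.trans hj0.symm)]
        rw [sub_mul, mul_sub, mul_sub, he, heF, hFe, hFF]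
        abel
      · have hij : i ≠ j := fun h => hj0 (h ▸ hi0)
        simp only [if_pos hi0, if_neg hj0, if_neg hij]
        split_ifs with hj
        · rw [sub_mul, h1, hFQ j ((hmem j).2 ⟨hj0, hj⟩), sub_self]
        · rw [mul_zero]
    · by_cases hj0 : j = 0
      · have hij : i ≠ j := fun h => hi0 (h.trans hj0)
        simp only [if_neg hi0, if_pos hj0, if_neg hij]
        split_ifs with hi
        · rw [mul_sub, h2, hQF i ((hmem i).2 ⟨hi0, hi⟩), sub_self]
        · rw [zero_mul]
      · simp only [if_neg hi0, if_neg hj0]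
        by_cases hi : i < N + 1
        · by_cases hj : j < N + 1
          · rw [if_pos hi, if_pos hj, hQ]
          · rw [if_pos hi, if_neg hj, mul_zero, if_neg (by omega)]
        · rw [if_neg hi, zero_mul]
          split_ifs <;> rfl
  · intro i hi
    simp only
    rw [if_neg (by omega), if_neg (by omega)]
  · rw [← Finset.add_sum_erase _ _ (Finset.mem_range.2 (Nat.succ_pos N)), ← hs]
    have e1 : ∑ x ∈ s, (if x = 0 then e - F else if x < N + 1 then Q x else 0) = F := by
      rw [hF]
      refine Finset.sum_congr rfl fun i hi => ?_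
      rw [hmem] at hi
      rw [if_neg hi.1, if_pos hi.2]
    rw [if_pos rfl, e1]
    abel
  · intro i hi hi'
    simp only
    rw [if_neg hi, if_pos (by omega)]
  · exact if_pos rfl

variable {k : Type u} [Field k] {𝒱 : VarClass k}

variable {C : TheoryData.{u, v, 0} 𝒱 ℚ} {K : Type w} [Field K]
  {H : WeilTheoryData.{u, v, w} C K} {X Y Z : 𝒱.Obj}
  [hC : IsChowProj C] [hH : IsWeilProj H] {G : Type} [Group G]
  {T : Type} [Fintype T] {W : T → 𝒱.Obj} {e : C.A (Z.prod Z)}
  {p : ∀ t, C.A ((W t).prod (W t))} {r : T → ℤ} {a : ∀ t, C.A (Z.prod (W t))}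
  {b : ∀ t, C.A ((W t).prod Z)} {G' : T → Type} {ρ : ∀ t, G' t → C.A ((W t).prod (W t))}

include hC

lemma msum_b (h : IsMotSum C e p r a b ρ) (t : T) : C.comp (b t) (C.comp (a t) (b t)) = b t := by
  classical
  have h1 : C.comp (b t) (∑ t', C.comp (a t') (b t')) = b t := by rw [h.sum, (h.b_mem t).2]
  rw [comp_sum, Finset.sum_eq_single t] at h1
  · exact h1
  · intro t' _ hne
    rw [← comp_assoc C, h.orth t t' hne.symm, zero_comp]
  · intro h2
    exact absurd (Finset.mem_univ t) h2

lemma msum_e (h : IsMotSum C e p r a b ρ) : C.comp e e = e := by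
  have h1 : C.comp e (∑ t, C.comp (a t) (b t)) = ∑ t, C.comp (a t) (b t) := by
    rw [comp_sum]
    refine Finset.sum_congr rfl fun t _ => ?_
    rw [← comp_assoc C, (h.a_mem t).1]
  rwa [h.sum] at h1

/-- Multiplication of diagonal operators. -/
lemma mdiag_comp (h : IsMotSum C e p r a b ρ) (x y : ∀ t, C.A ((W t).prod (W t)))
    (hx : ∀ t, C.comp (C.comp (b t) (a t)) (y t) = C.comp (y t) (C.comp (b t) (a t))) :
    C.comp (∑ t, C.comp (C.comp (a t) (x t)) (b t)) (∑ t, C.comp (C.comp (a t) (y t)) (b t)) =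
      ∑ t, C.comp (C.comp (a t) (C.comp (x t) (y t))) (b t) := by
  classical
  have key : ∀ t t', C.comp (C.comp (C.comp (a t) (x t)) (b t))
      (C.comp (C.comp (a t') (y t')) (b t')) =
      C.comp (C.comp (C.comp (a t) (x t)) (C.comp (b t) (a t')))
        (C.comp (y t') (b t')) := by
    intro t t'
    simp only [comp_assoc C]
  rw [sum_comp]
  refine Finset.sum_congr rfl fun t _ => ?_
  rw [comp_sum]
  simp_rw [key]
  rw [Finset.sum_eq_single t]
  · have e1 : C.comp (C.comp (C.comp (a t) (x t)) (C.comp (b t) (a t)))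
        (C.comp (y t) (b t)) = C.comp (C.comp (a t) (x t))
          (C.comp (C.comp (C.comp (b t) (a t)) (y t)) (b t)) := by
      simp only [comp_assoc C]
    have e2 : C.comp (C.comp (a t) (x t)) (C.comp (C.comp (y t) (C.comp (b t) (a t))) (b t)) =
        C.comp (C.comp (a t) (C.comp (x t) (y t))) (C.comp (b t) (C.comp (a t) (b t))) := by
      simp only [comp_assoc C]
    rw [e1, hx, e2, msum_b h]
  · intro t' _ hne
    rw [h.orth t t' hne.symm, comp_zero, zero_comp]
  · intro h1
    exact absurd (Finset.mem_univ t) h1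

omit hC in
/-- The shifted decomposition. -/
noncomputable def sz {Y : 𝒱.Obj} (π : ℕ → C.A (Y.prod Y)) (s i : ℤ) : C.A (Y.prod Y) :=
  if 2 * s ≤ i then π (i - 2 * s).toNat else 0

include hH

lemma sz_mem {q : C.A (Y.prod Y)} {π : ℕ → C.A (Y.prod Y)} (h : CKp H q π) (s i : ℤ) :
    sz π s i ∈ C.gr (Y.prod Y) Y.dim := by
  unfold sz
  split_ifs
  · exact h.deg _
  · exact Submodule.zero_mem _

lemma sz_comp {q : C.A (Y.prod Y)} {π : ℕ → C.A (Y.prod Y)} (h : CKp H q π) (s i j : ℤ) :
    C.comp (sz π s i) (sz π s j) = if i = j then sz π s i else 0 := by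
  unfold sz
  by_cases hi : 2 * s ≤ i
  · by_cases hj : 2 * s ≤ j
    · rw [if_pos hi, if_pos hj, h.mul]
      by_cases hij : i = j
      · rw [if_pos hij, if_pos (by rw [hij])]
      · rw [if_neg hij, if_neg (by omega)]
    · rw [if_neg hj, comp_zero, if_neg (by omega)]
  · rw [if_neg hi, zero_comp]
    split_ifs <;> rfl

lemma sz_act {q : C.A (Y.prod Y)} {π : ℕ → C.A (Y.prod Y)} (h : CKp H q π) (s i m : ℤ)
    (x : H.A Y) (hx : x ∈ H.gr Y m) :
    H.act (H.cl (sz π s i)) x = if m = i - 2 * s then H.act (H.cl q) x else 0 := by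
  unfold sz
  by_cases hi : 2 * s ≤ i
  · rw [if_pos hi, h.act _ m x hx]
    by_cases hm : m = i - 2 * s
    · rw [if_pos hm, if_pos (by omega)]
    · rw [if_neg hm, if_neg (by omega)]
  · rw [if_neg hi, map_zero]
    split_ifs with hm
    · have h0 : x = 0 := by
        by_contra hx0
        have := nonneg_of_mem H hx hx0
        omega
      rw [h0, H.act_map_zero, H.act_map_zero]
    · exact H.act_zero x

/-- Sums of twisted summands. -/
theorem eqCKp_sum (h : IsMotSum C e p r a b ρ) {τ : G → C.A (Z.prod Z)}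
    (hτ : ∀ g t, ∃ g' : G' t, C.comp (τ g) (a t) = C.comp (a t) (ρ t g') ∧
        C.comp (b t) (τ g) = C.comp (ρ t g') (b t))
    (hW : ∀ t, EqCKp H (p t) (ρ t)) : EqCKp H e τ := by
  classical
  choose π hπ hg using hW
  let Q : ℤ → C.A (Z.prod Z) := fun i =>
    ∑ t, C.comp (C.comp (a t) (sz (π t) (r t) i)) (b t)
  have hsz : ∀ t g i, C.comp (ρ t g) (sz (π t) (r t) i) =
      C.comp (sz (π t) (r t) i) (ρ t g) := by
    intro t g i
    unfold sz
    split_ifs
    · exact hg t g _
    · rw [comp_zero, zero_comp]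
  have hcomm : ∀ t i, C.comp (C.comp (b t) (a t)) (sz (π t) (r t) i) =
      C.comp (sz (π t) (r t) i) (C.comp (b t) (a t)) := fun t i =>
    commutes_span (fun g => hsz t g i) (h.mem t)
  have hQ : ∀ i j, C.comp (Q i) (Q j) = if i = j then Q i else 0 := by
    intro i j
    simp only [Q]
    rw [mdiag_comp h _ _ fun t => hcomm t j]
    split_ifs with hij
    · subst hij
      exact Finset.sum_congr rfl fun t _ => by rw [sz_comp (hπ t), if_pos rfl]
    · exact Finset.sum_eq_zero fun t _ => by rw [sz_comp (hπ t), if_neg hij, comp_zero, zero_comp]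
  have heQ : ∀ i, C.comp e (Q i) = Q i := by
    intro i
    simp only [Q]
    rw [comp_sum]
    refine Finset.sum_congr rfl fun t _ => ?_
    rw [← comp_assoc C, ← comp_assoc C, (h.a_mem t).1]
  have hQe : ∀ i, C.comp (Q i) e = Q i := by
    intro i
    simp only [Q]
    rw [sum_comp]
    refine Finset.sum_congr rfl fun t _ => ?_
    rw [comp_assoc C, (h.b_mem t).2]
  have hda : ∀ t, a t ∈ C.gr (Z.prod (W t)) ((Z.dim : ℤ) + -(r t : ℤ)) := fun t => by
    rw [← sub_eq_add_neg]; exact h.deg_a t
  have hdeg : ∀ (t : T) (x : C.A ((W t).prod (W t))), x ∈ C.gr ((W t).prod (W t)) (W t).dim →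
      C.comp (C.comp (a t) x) (b t) ∈ C.gr (Z.prod Z) Z.dim := by
    intro t x hx
    have h3 : x ∈ C.gr ((W t).prod (W t)) (((W t).dim : ℤ) + 0) := by
      rw [add_zero]; exact hx
    have h2 := comp_mem C (comp_mem C (hda t) h3) (h.deg_b t)
    have e1 : (Z.dim : ℤ) + (-(r t : ℤ) + 0 + (r t : ℤ)) = Z.dim := by ring
    rw [e1] at h2
    exact h2
  have hact : ∀ (i m : ℤ) (x : H.A Z), x ∈ H.gr Z m →
      H.act (H.cl (Q i)) x = if m = i then H.act (H.cl e) x else 0 := by
    intro i m x hx
    have h1 : H.act (H.cl (Q i)) x = ∑ t,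
        H.act (H.cl (b t)) (H.act (H.cl (sz (π t) (r t) i)) (H.act (H.cl (a t)) x)) := by
      simp only [Q]
      rw [map_sum, act_sum]
      refine Finset.sum_congr rfl fun t _ => ?_
      rw [actH_comp, actH_comp]
    have h2 : ∀ t, H.act (H.cl (sz (π t) (r t) i)) (H.act (H.cl (a t)) x) =
        if m = i then H.act (H.cl (a t)) x else 0 := by
      intro t
      rw [sz_act (hπ t) _ _ _ _ (actH_gr' (hda t) hx), ← actH_comp, (h.a_mem t).2]
      by_cases hm : m = i
      · rw [if_pos hm, if_pos (by omega)]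
      · rw [if_neg hm, if_neg (by omega)]
    rw [h1]
    split_ifs with hm
    · rw [← h.sum, map_sum, act_sum]
      refine Finset.sum_congr rfl fun t _ => ?_
      rw [h2 t, if_pos hm, actH_comp]
    · refine Finset.sum_eq_zero fun t _ => ?_
      rw [h2 t, if_neg hm, H.act_map_zero]
  have hτQ : ∀ g i, C.comp (τ g) (Q i) = C.comp (Q i) (τ g) := by
    intro g i
    simp only [Q]
    rw [comp_sum, sum_comp]
    refine Finset.sum_congr rfl fun t _ => ?_
    obtain ⟨g', ha, hb⟩ := hτ g t
    have e1 : C.comp (τ g) (C.comp (C.comp (a t) (sz (π t) (r t) i)) (b t)) =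
        C.comp (C.comp (C.comp (τ g) (a t)) (sz (π t) (r t) i)) (b t) := by
      simp only [comp_assoc C]
    have e2 : C.comp (C.comp (C.comp (a t) (ρ t g')) (sz (π t) (r t) i)) (b t) =
        C.comp (C.comp (a t) (C.comp (ρ t g') (sz (π t) (r t) i))) (b t) := by
      simp only [comp_assoc C]
    have e3 : C.comp (C.comp (a t) (C.comp (sz (π t) (r t) i) (ρ t g'))) (b t) =
        C.comp (C.comp (a t) (sz (π t) (r t) i)) (C.comp (ρ t g') (b t)) := by
      simp only [comp_assoc C]
    rw [e1, ha, e2, hsz, e3, ← hb]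
    simp only [comp_assoc C]
  have hτe : ∀ g, C.comp (τ g) e = C.comp e (τ g) := by
    intro g
    rw [← h.sum, comp_sum, sum_comp]
    refine Finset.sum_congr rfl fun t _ => ?_
    obtain ⟨g', ha, hb⟩ := hτ g t
    rw [← comp_assoc C, ha, comp_assoc C, ← hb, comp_assoc C]
  have hedeg : e ∈ C.gr (Z.prod Z) Z.dim := by
    rw [← h.sum]
    refine Submodule.sum_mem _ fun t _ => ?_
    have h2 := comp_mem C (hda t) (h.deg_b t)
    have e1 : (Z.dim : ℤ) + (-(r t : ℤ) + (r t : ℤ)) = Z.dim := by ring
    rw [e1] at h2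
    exact h2
  obtain ⟨f, f1, f2, f3, f4, f5⟩ := normalise (R := Cor C Z) (e := e)
    (show C.comp e e = e from msum_e h) (2 * Z.dim) (fun i : ℕ => Q i)
    (fun i j => by
      change C.comp (Q j) (Q i) = _
      rw [hQ]
      by_cases hij : i = j
      · subst hij
        rw [if_pos rfl, if_pos rfl]
      · rw [if_neg hij, if_neg (by omega)]
        rfl)
    (fun i => hQe i) (fun i => heQ i)
  have hf0 : ∀ i ≤ 2 * Z.dim, i ≠ 0 → f i = Q i := fun i hi hi' => f4 i hi' hi
  have hsum0 : f 0 = (e - ∑ i ∈ (Finset.range (2 * Z.dim + 1)).erase 0, Q i : C.A (Z.prod Z)) :=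
    f5
  refine ⟨f, ⟨?_, ?_, ?_, ?_, ?_⟩, ?_⟩
  · intro i
    by_cases hi : 2 * Z.dim < i
    · rw [f2 i hi]
      exact Submodule.zero_mem _
    · by_cases hi0 : i = 0
      · subst hi0
        rw [hsum0]
        refine Submodule.sub_mem _ hedeg (Submodule.sum_mem _ fun j _ => ?_)
        exact Submodule.sum_mem _ fun t _ => hdeg t _ (sz_mem (hπ t) _ _)
      · rw [hf0 i (by omega) hi0]
        exact Submodule.sum_mem _ fun t _ => hdeg t _ (sz_mem (hπ t) _ _)
  · exact f2
  · intro i j
    have := f1 j i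
    by_cases hij : i = j
    · subst hij
      rw [if_pos rfl] at this ⊢
      exact this
    · rw [if_neg (Ne.symm hij)] at this
      rw [if_neg hij]
      exact this
  · exact f3
  · intro i m x hx
    by_cases hx0 : x = 0
    · rw [hx0, H.act_map_zero, H.act_map_zero]
      split_ifs <;> rfl
    have hm0 := nonneg_of_mem H hx hx0
    have hm1 : m ≤ 2 * Z.dim := by
      by_contra hcon
      rw [gr_top H (by omega)] at hx
      exact hx0 ((Submodule.mem_bot _).1 hx)
    obtain ⟨m, rfl⟩ := Int.eq_ofNat_of_zero_le hm0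
    by_cases hi : 2 * Z.dim < i
    · rw [f2 i hi, if_neg (by omega)]
      have e1 : H.cl (0 : Cor C Z) = 0 := map_zero _
      rw [e1]
      exact H.act_zero x
    · by_cases hi0 : i = 0
      · subst hi0
        have h2 : H.act (H.cl (f 0)) x = H.act (H.cl e) x -
            ∑ i ∈ (Finset.range (2 * Z.dim + 1)).erase 0, H.act (H.cl (Q i)) x := by
          have e1 : ∀ α β : H.A (Z.prod Z), H.act (α - β) x = H.act α x - H.act β x := by
            intro α β
            rw [← actB_apply, map_sub, LinearMap.sub_apply]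
            rfl
          rw [hsum0, map_sub, map_sum, e1, act_sum]
        rw [h2, Finset.sum_congr rfl fun (i : ℕ) _ => hact i m x hx]
        split_ifs with hm
        · rw [Finset.sum_eq_zero, sub_zero]
          intro j hj
          rw [Finset.mem_erase] at hj
          rw [if_neg (by omega)]
        · rw [Finset.sum_eq_single m, if_pos rfl, sub_self]
          · intro j _ hj
            rw [if_neg (by omega)]
          · intro h4
            exfalso
            apply h4
            rw [Finset.mem_erase, Finset.mem_range]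
            exact ⟨by omega, by omega⟩
      · rw [hf0 i (by omega) hi0]
        exact hact i m x hx
  · intro g i
    by_cases hi : 2 * Z.dim < i
    · rw [f2 i hi]
      exact (comp_zero (T := C) _).trans (zero_comp (T := C) _).symm
    · by_cases hi0 : i = 0
      · subst hi0
        rw [hsum0, comp_sub, sub_comp, comp_sum, sum_comp, hτe,
          Finset.sum_congr rfl fun (i : ℕ) _ => hτQ g i]
      · rw [hf0 i (by omega) hi0]
        exact hτQ g i

end Pool.Agent.U3.MQ
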