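import Pool.Agent.U3.MQ.Base
import Pool.Agent.U981.EQ.Main
import Pool.Agent.U3.QP.Close

/-!
# Tensor products and duals
-/

set_option autoImplicit false

open CategoryTheory AlgebraicGeometry

universe u v w

namespace Pool.Agent.U3.MQ

open Pool.Agent.H914 Pool.Agent.H914.VarClass Pool.Agent.H914.VarClass.Obj Pool.Agent.W492.BB
  Pool.Agent.W550.Corr Pool.Agent.TH133 Pool.Agent.TH829.Kim Pool.Agent.U3.SD Pool.Agent.U981.EQ
  Pool.Agent.U3.QP

set_option linter.unusedSectionVars false

variable {k : Type u} [Field k] {𝒱 : VarClass k}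

variable {C : TheoryData.{u, v, 0} 𝒱 ℚ} {K : Type w} [Field K]
  {H : WeilTheoryData.{u, v, w} C K} {X Y Z W : 𝒱.Obj}
  [hC : IsChowProj C] [hH : IsWeilProj H] {G : Type} [Group G]

include hC hH

/-- The sum over any sufficiently large range is `p`. -/
lemma CKp.sum_of_le {p : C.A (X.prod X)} {π : ℕ → C.A (X.prod X)} (h : CKp H p π) {N : ℕ}
    (hN : 2 * X.dim + 1 ≤ N) : ∑ i ∈ Finset.range N, π i = p := by
  rw [← h.sum]
  symm
  apply Finset.sum_subset
  · intro i hi
    rw [Finset.mem_range] at *
    omega
  · intro i _ hi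
    rw [Finset.mem_range] at hi
    exact h.out i (by omega)

theorem CKp.prod {p : C.A (X.prod X)} {q : C.A (Z.prod Z)} {π : ℕ → C.A (X.prod X)}
    {ρ : ℕ → C.A (Z.prod Z)} (h : CKp H p π) (h' : CKp H q ρ) :
    CKp H (tens C p q) (prodCK C π ρ) := by
  have hcomp : ∀ i j, C.comp (prodCK C π ρ i) (prodCK C π ρ j) =
      if i = j then prodCK C π ρ i else 0 := by
    intro i j
    unfold prodCK
    rw [comp_sum]
    simp_rw [sum_comp, tens_comp', h.mul, h'.mul]
    split_ifs with hij
    · subst hij
      apply Finset.sum_congr rfl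
      intro p hp
      rw [Finset.sum_eq_single p]
      · rw [if_pos rfl, if_pos rfl]
      · intro q hq hqp
        rw [if_neg hqp, tens_zero_left]
      · intro h1
        exact absurd hp h1
    · apply Finset.sum_eq_zero
      intro p hp
      apply Finset.sum_eq_zero
      intro q hq
      rw [Finset.mem_range] at hp hq
      by_cases h1 : q = p
      · rw [if_pos h1, if_neg (by omega), tens_zero_right]
      · rw [if_neg h1, tens_zero_left]
  have hact : ∀ (n : ℕ) (m : ℤ), ∀ c ∈ H.gr (X.prod Z) m,
      H.act (H.cl (prodCK C π ρ n)) c = if m = n then H.act (H.cl (tens C p q)) c else 0 := by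
    intro n m c hc
    have h1 := H.kunneth X Z m hc
    clear hc
    induction h1 using Submodule.span_induction with
    | mem x hx =>
      obtain ⟨l, a, b, ha, hb, rfl⟩ := hx
      by_cases ha0 : a = 0
      · subst ha0
        rw [map_zero, zero_mul, TheoryData.act_map_zero, TheoryData.act_map_zero]
        split_ifs <;> rfl
      by_cases hb0 : b = 0
      · subst hb0
        rw [map_zero, mul_zero, TheoryData.act_map_zero, TheoryData.act_map_zero]
        split_ifs <;> rfl
      have hl := nonneg_of_mem H ha ha0
      have hl' := nonneg_of_mem H hb hb0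
      obtain ⟨l, rfl⟩ := Int.eq_ofNat_of_zero_le hl
      obtain ⟨l', hl'⟩ := Int.eq_ofNat_of_zero_le hl'
      obtain rfl : m = l + l' := by omega
      have e0 : H.pull (fst X Z) a * H.pull (snd X Z) b = H.ext a b := rfl
      rw [e0]
      unfold prodCK
      rw [map_sum, act_sum]
      simp_rw [actH_tens_ext]
      rw [add_sub_cancel_left] at hb
      simp_rw [h.act _ _ _ ha, h'.act _ _ _ hb]
      by_cases hn : (l + l' : ℤ) = n
      · rw [if_pos hn, Finset.sum_eq_single l]
        · rw [if_pos rfl, if_pos (by omega)]
        · intro q hq hq'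
          rw [if_neg (by omega), TheoryData.ext_zero_left]
        · intro h1
          rw [Finset.mem_range] at h1
          omega
      · rw [if_neg hn]
        apply Finset.sum_eq_zero
        intro q hq
        rw [Finset.mem_range] at hq
        by_cases h1 : (l : ℤ) = q
        · rw [if_pos h1, if_neg (by omega), TheoryData.ext_zero_right]
        · rw [if_neg h1, TheoryData.ext_zero_left]
    | zero =>
      rw [TheoryData.act_map_zero, TheoryData.act_map_zero]
      split_ifs <;> rfl
    | add x y _ _ hx hy =>
      rw [act_map_add, act_map_add, hx, hy]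
      split_ifs
      · rfl
      · exact add_zero 0
    | smul r x _ hx =>
      rw [act_map_smul, act_map_smul, hx]
      split_ifs
      · rfl
      · exact smul_zero r
  have hmem : ∀ i, prodCK C π ρ i ∈ C.gr ((X.prod Z).prod (X.prod Z)) (X.prod Z).dim := by
    intro i
    unfold prodCK
    apply Submodule.sum_mem
    intro p _
    have := tens_mem C (h.deg p) (h'.deg (i - p))
    rw [dim_prod]
    push_cast
    exact this
  refine ⟨hmem, ?_, hcomp, ?_, hact⟩
  · intro i hi
    rw [dim_prod] at hi
    unfold prodCK
    apply Finset.sum_eq_zero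
    intro p hp
    rw [Finset.mem_range] at hp
    by_cases h1 : 2 * X.dim < p
    · rw [h.out _ h1, tens_zero_left]
    · rw [h'.out _ (by omega), tens_zero_right]
  · have e1 : tens C p q = tens C (∑ i ∈ Finset.range (2 * (X.prod Z).dim + 1), π i)
        (∑ i ∈ Finset.range (2 * (X.prod Z).dim + 1), ρ i) := by
      rw [h.sum_of_le (N := 2 * (X.prod Z).dim + 1) (by rw [dim_prod]; omega),
        h'.sum_of_le (N := 2 * (X.prod Z).dim + 1) (by rw [dim_prod]; omega)]
    rw [e1]
    unfold prodCK
    rw [sum_sum_range (fun i j => tens C (π i) (ρ j)), ← tensL_apply, map_sum tensL,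
      LinearMap.sum_apply]
    apply Finset.sum_congr rfl
    intro i hi
    rw [map_sum]
    apply Finset.sum_subset
    · intro j hj
      rw [Finset.mem_range] at *
      omega
    · intro j hj hj'
      rw [Finset.mem_range] at *
      rw [dim_prod] at *
      by_cases h1 : 2 * X.dim < i
      · rw [h.out _ h1, tens_zero_left]
      · rw [h'.out _ (by omega), tens_zero_right]

/-- Tensor products. -/
theorem eqCKp_tensor {p : C.A (X.prod X)} {q : C.A (Y.prod Y)} {ρ : G → C.A (X.prod X)}
    {σ : G → C.A (Y.prod Y)} (h : EqCKp H p ρ) (h' : EqCKp H q σ) :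
    EqCKp H (tens C p q) (fun g => tens C (ρ g) (σ g)) := by
  obtain ⟨π, hπ, hg⟩ := h
  obtain ⟨π', hπ', hg'⟩ := h'
  refine ⟨prodCK C π π', hπ.prod hπ', fun g n => ?_⟩
  unfold prodCK
  rw [comp_sum, sum_comp]
  refine Finset.sum_congr rfl fun i _ => ?_
  rw [tens_comp', tens_comp', hg, hg']

/-- Duals. -/
theorem eqCKp_dual {p : C.A (X.prod X)} {ρ : G → C.A (X.prod X)} (h : EqCKp H p ρ) :
    EqCKp H (tp C p) (fun g => tp C (ρ g⁻¹)) := by
  obtain ⟨π, hπ, hg⟩ := h
  refine ⟨fun i => if i ≤ 2 * X.dim then tp C (π (2 * X.dim - i)) else 0,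
    ⟨?_, ?_, ?_, ?_, ?_⟩, ?_⟩
  · intro i
    split_ifs
    · exact tp_mem C (hπ.deg _)
    · exact Submodule.zero_mem _
  · intro i hi
    rw [if_neg (by omega)]
  · intro i j
    by_cases hi : i ≤ 2 * X.dim
    · by_cases hj : j ≤ 2 * X.dim
      · rw [if_pos hi, if_pos hj, ← tp_comp C (ch_comm C), hπ.mul]
        by_cases hij : i = j
        · subst hij
          rw [if_pos rfl, if_pos rfl]
        · rw [if_neg (by omega), if_neg hij, tp_zero]
      · rw [if_neg hj, comp_zero, if_neg (by omega)]
    · rw [if_neg hi, zero_comp]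
      split_ifs <;> rfl
  · rw [← hπ.sum, tp_sum, ← Finset.sum_range_reflect (fun i => tp C (π i))]
    refine Finset.sum_congr rfl fun i hi => ?_
    rw [Finset.mem_range] at hi
    rw [if_pos (by omega)]
    congr 2
  · intro i m b hb
    by_cases hb0 : b = 0
    · subst hb0
      rw [H.act_map_zero, H.act_map_zero]
      split_ifs <;> rfl
    have hm0 := nonneg_of_mem H hb hb0
    have hm1 : m ≤ 2 * X.dim := by
      by_contra hcon
      rw [gr_top H (by omega)] at hb
      exact hb0 ((Submodule.mem_bot _).1 hb)
    by_cases hi : i ≤ 2 * X.dim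
    · rw [if_pos hi]
      have hpm : H.act (H.cl (tp C p)) b ∈ H.gr X m := by
        have h0 : tp C p ∈ C.gr (X.prod X) (X.dim + 0) := by
          rw [add_zero, ← hπ.sum]
          exact tp_mem C (Submodule.sum_mem _ fun i _ => hπ.deg i)
        have := actH_mem H h0 hb
        rwa [mul_zero, add_zero] at this
      split_ifs with hm
      · rw [← sub_eq_zero]
        apply H.nondeg
        have h2 : H.tr X ∘ₗ LinearMap.mulLeft K (H.act (H.cl (tp C (π (2 * X.dim - i)))) b) =
            H.tr X ∘ₗ LinearMap.mulLeft K (H.act (H.cl (tp C p)) b) := by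
          apply ext_gr H
          intro j x hx
          rw [LinearMap.comp_apply, LinearMap.comp_apply, LinearMap.mulLeft_apply,
            LinearMap.mulLeft_apply, tr_act' H, hπ.act _ j x hx]
          split_ifs with h3
          · exact (tr_act' H _ _ _).symm
          · rw [mul_zero, map_zero]
            exact (tr_zero H (H.mul_mem hpm hx) (by omega)).symm
        intro x
        have h3 := LinearMap.congr_fun h2 x
        rw [LinearMap.comp_apply, LinearMap.comp_apply, LinearMap.mulLeft_apply,
          LinearMap.mulLeft_apply] at h3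
        rw [sub_mul, map_sub, h3, sub_self]
      · apply H.nondeg
        have h2 : H.tr X ∘ₗ LinearMap.mulLeft K
            (H.act (H.cl (tp C (π (2 * X.dim - i)))) b) = 0 := by
          apply ext_gr H
          intro j x hx
          rw [LinearMap.comp_apply, LinearMap.mulLeft_apply, tr_act' H, hπ.act _ j x hx,
            LinearMap.zero_apply]
          split_ifs with h3
          · rw [← tr_act' H]
            exact tr_zero H (H.mul_mem hpm hx) (by omega)
          · rw [mul_zero, map_zero]
        exact fun x => LinearMap.congr_fun h2 x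
    · rw [if_neg hi, map_zero, if_neg (by omega)]
      exact H.act_zero b
  · intro g i
    simp only
    split_ifs
    · rw [← tp_comp C (ch_comm C), ← tp_comp C (ch_comm C), hg]
    · rw [comp_zero, zero_comp]

end Pool.Agent.U3.MQ
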